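import Pool.Agent.WR3.StmtsB

/-!
# Squad WR3, row STY (t steps back for an invariant set)
-/

set_option autoImplicit false

namespace Pool.Agent.WR3.H60

open Pool.Agent.WIR Pool.Agent.WR2 Pool.Agent.WR3
open scoped BigOperators ENNReal Topology
open Filter

theorem od_lt (t b : ℕ) : od t b < t + 1 := by
  unfold od
  have h := Finset.card_filter_le (Finset.range t) (fun i => T^[i] b % 2 = 1)
  rw [Finset.card_range] at h
  omega

theorem sty (h1 : UpbStmt) (h2 : SmuStmt) (h3 : PrdStmt) (h4 : PreStmt) : StyStmt := by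
  classical
  intro S B hS t x hx
  obtain ⟨u1, u2⟩ := h1
  obtain ⟨s1, s2, -, -⟩ := h2
  obtain ⟨p1, p2, p3, -⟩ := h4
  set N := ⌊x⌋₊ with hN
  set Q := (Finset.Icc 1 N).filter (fun b => T^[t] b ∈ S) with hQ
  have h2t : (0 : ℝ) < 2 ^ t := by positivity
  -- (a) the iterates stay above `B`
  have hit : ∀ b, 2 ^ t * B < b → (b ∈ S ↔ T^[t] b ∈ S) := by
    intro b hb
    have key : ∀ i, i ≤ t → (b ∈ S ↔ T^[i] b ∈ S) := by
      intro i
      induction i with
      | zero => intro _; rfl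
      | succ i ih =>
        intro hi
        rw [ih (by omega), Function.iterate_succ_apply']
        refine hS _ ?_
        by_contra hc
        have h5 := u2 i b
        have h6 : 2 ^ i * T^[i] b ≤ 2 ^ t * B :=
          Nat.mul_le_mul (Nat.pow_le_pow_right (by norm_num) (by omega)) (not_lt.1 hc)
        omega
    exact key t le_rfl
  have ha1 : ((Finset.Icc 1 N).filter (fun b => b ∈ S)).card ≤ Q.card + 2 ^ t * B := by
    have h5 : (Finset.Icc 1 N).filter (fun b => b ∈ S) ⊆ Q ∪ Finset.Icc 1 (2 ^ t * B) := by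
      intro b hb
      rw [Finset.mem_filter, Finset.mem_Icc] at hb
      rw [Finset.mem_union]
      by_cases hbb : b ≤ 2 ^ t * B
      · right; exact Finset.mem_Icc.2 ⟨hb.1.1, hbb⟩
      · left
        rw [hQ, Finset.mem_filter]
        exact ⟨Finset.mem_Icc.2 hb.1, (hit b (by omega)).1 hb.2⟩
    have h6 := (Finset.card_le_card h5).trans (Finset.card_union_le _ _)
    rwa [Nat.card_Icc, Nat.add_sub_cancel] at h6
  have ha2 : Q.card ≤ ((Finset.Icc 1 N).filter (fun b => b ∈ S)).card + 2 ^ t * B := by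
    have h5 : Q ⊆ (Finset.Icc 1 N).filter (fun b => b ∈ S) ∪ Finset.Icc 1 (2 ^ t * B) := by
      intro b hb
      rw [hQ, Finset.mem_filter, Finset.mem_Icc] at hb
      rw [Finset.mem_union]
      by_cases hbb : b ≤ 2 ^ t * B
      · right; exact Finset.mem_Icc.2 ⟨hb.1.1, hbb⟩
      · left
        rw [Finset.mem_filter]
        exact ⟨Finset.mem_Icc.2 hb.1, (hit b (by omega)).2 hb.2⟩
    have h6 := (Finset.card_le_card h5).trans (Finset.card_union_le _ _)
    rwa [Nat.card_Icc, Nat.add_sub_cancel] at h6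
  have hNS : NS S x = (((Finset.Icc 1 N).filter (fun b => b ∈ S)).card : ℝ) := rfl
  -- (b) the sum `GS` as a sum over `b`
  have hPre : ∀ l c : ℕ, c ≤ ⌊3 ^ l * x / 2 ^ t⌋₊ →
      Pre t l c = (Finset.Icc 1 N).filter (fun b => od t b = l ∧ T^[t] b = c) := by
    intro l c hc
    ext b
    rw [p1, Finset.mem_filter, Finset.mem_Icc]
    constructor
    · rintro ⟨hb, hT, ho⟩
      refine ⟨⟨hb, ?_⟩, ho, hT⟩
      rw [hN]
      refine Nat.le_floor ?_
      have h5 := p2 t l c b ((p1 t l c b).2 ⟨hb, hT, ho⟩)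
      have h6 : (3 : ℝ) ^ l * b ≤ 2 ^ t * c := by exact_mod_cast h5
      have h7 : (c : ℝ) ≤ 3 ^ l * x / 2 ^ t :=
        (Nat.le_floor_iff (by positivity)).1 hc
      rw [le_div_iff₀ h2t] at h7
      have h8 : (3 : ℝ) ^ l * b ≤ 3 ^ l * x := by linarith
      exact le_of_mul_le_mul_left h8 (by positivity)
    · rintro ⟨⟨hb, -⟩, ho, hT⟩
      exact ⟨hb, hT, ho⟩
  have hGS : GS 1 (fun _ c => ind S c) t x =
      ∑ b ∈ Finset.Icc 1 N, (if T^[t] b ∈ Finset.Icc 1 ⌊3 ^ od t b * x / 2 ^ t⌋₊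
        then ind S (T^[t] b) else 0) := by
    unfold GS
    have h5 : ∀ l ∈ Finset.range (t + 1),
        ∑ c ∈ Finset.Icc 1 ⌊(1 : ℝ) * (3 ^ l * x / 2 ^ t)⌋₊, ind S c * (uT t l c : ℝ) =
        ∑ b ∈ Finset.Icc 1 N, (if od t b = l ∧ T^[t] b ∈ Finset.Icc 1 ⌊3 ^ l * x / 2 ^ t⌋₊
          then ind S (T^[t] b) else 0) := by
      intro l _
      rw [one_mul]
      have h6 : ∀ c ∈ Finset.Icc 1 ⌊3 ^ l * x / 2 ^ t⌋₊, ind S c * (uT t l c : ℝ) =
          ∑ b ∈ Finset.Icc 1 N, (if od t b = l ∧ T^[t] b = c then ind S c else 0) := by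
        intro c hc
        rw [p3, hPre l c (Finset.mem_Icc.1 hc).2, Finset.card_filter]
        push_cast
        rw [Finset.mul_sum]
        refine Finset.sum_congr rfl fun b _ => ?_
        split_ifs <;> simp
      rw [Finset.sum_congr rfl h6, Finset.sum_comm]
      refine Finset.sum_congr rfl fun b _ => ?_
      by_cases ho : od t b = l
      · simp only [ho, true_and]
        rw [Finset.sum_ite_eq]
      · simp only [ho, false_and, if_false]
        exact Finset.sum_const_zero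
    rw [Finset.sum_congr rfl h5, Finset.sum_comm]
    refine Finset.sum_congr rfl fun b _ => ?_
    rw [Finset.sum_eq_single (od t b)]
    · simp only [true_and]
    · intro l _ hl
      rw [if_neg]
      rintro ⟨h, -⟩
      exact hl h.symm
    · intro h
      exact absurd (Finset.mem_range.2 (od_lt t b)) h
  have hQc : (Q.card : ℝ) = ∑ b ∈ Finset.Icc 1 N, ind S (T^[t] b) := by
    rw [hQ, Finset.card_filter]
    push_cast
    rfl
  set Bad := (Finset.Icc 1 N).filter
    (fun b => T^[t] b ∉ Finset.Icc 1 ⌊3 ^ od t b * x / 2 ^ t⌋₊) with hBad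
  have hBadc : (Bad.card : ℝ) ≤ 2 ^ t := by
    have h5 : Bad ⊆ (Finset.range (t + 1)).biUnion fun l =>
        (Finset.Ioc ⌊3 ^ l * x / 2 ^ t⌋₊ (⌊3 ^ l * x / 2 ^ t⌋₊ + 3 ^ l)).biUnion fun c =>
          Pre t l c := by
      intro b hb
      rw [hBad, Finset.mem_filter, Finset.mem_Icc] at hb
      obtain ⟨⟨hb1, hbN⟩, hb2⟩ := hb
      rw [Finset.mem_biUnion]
      refine ⟨od t b, Finset.mem_range.2 (od_lt t b), ?_⟩
      rw [Finset.mem_biUnion]
      refine ⟨T^[t] b, ?_, (p1 _ _ _ _).2 ⟨hb1, rfl, rfl⟩⟩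
      have hpos : 1 ≤ T^[t] b := by
        by_contra hc
        have h6 := u2 t b
        have h7 : T^[t] b = 0 := by omega
        rw [h7, mul_zero] at h6
        omega
      rw [Finset.mem_Ioc]
      constructor
      · by_contra hc
        exact hb2 (Finset.mem_Icc.2 ⟨hpos, not_lt.1 hc⟩)
      · have h6 := u1 t b
        have h7 : (2 : ℝ) ^ t * (T^[t] b : ℝ) ≤ 3 ^ od t b * (b + 2 ^ t) := by exact_mod_cast h6
        have h8 : (b : ℝ) ≤ x := (Nat.le_floor_iff hx).1 hbN
        have h9 : (2 : ℝ) ^ t * (T^[t] b : ℝ) ≤ 3 ^ od t b * (x + 2 ^ t) :=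
          h7.trans (mul_le_mul_of_nonneg_left (by linarith) (by positivity))
        by_cases hle : T^[t] b ≤ 3 ^ od t b
        · omega
        · have h10 : T^[t] b - 3 ^ od t b ≤ ⌊3 ^ od t b * x / 2 ^ t⌋₊ := by
            refine Nat.le_floor ?_
            rw [le_div_iff₀ h2t, Nat.cast_sub (not_le.1 hle).le]
            push_cast
            nlinarith
          omega
    have h6 := (Finset.card_le_card h5).trans Finset.card_biUnion_le
    have h7 : ∀ l ∈ Finset.range (t + 1),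
        ((Finset.Ioc ⌊3 ^ l * x / 2 ^ t⌋₊ (⌊3 ^ l * x / 2 ^ t⌋₊ + 3 ^ l)).biUnion fun c =>
          Pre t l c).card ≤ t.choose l := by
      intro l _
      refine Finset.card_biUnion_le.trans ?_
      have h8 := (h3 l (fun c => (uT t l c : ℝ)) (fun _ => Nat.cast_nonneg _) (fun a ha => by
        have h9 := s2 t l a 1 ha
        rw [one_mul] at h9
        show ((uT t l (a + 3 ^ l) : ℕ) : ℝ) = _
        rw [h9])).2 ⌊3 ^ l * x / 2 ^ t⌋₊
      have h9 : ∑ a ∈ Finset.Ioc ⌊3 ^ l * x / 2 ^ t⌋₊ (⌊3 ^ l * x / 2 ^ t⌋₊ + 3 ^ l), uT t l a =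
          ∑ a ∈ Finset.Icc 1 (3 ^ l), uT t l a := by exact_mod_cast h8
      rw [s1] at h9
      rw [← h9]
      exact le_of_eq (Finset.sum_congr rfl fun c _ => (p3 t l c).symm)
    have h8 : Bad.card ≤ 2 ^ t := by
      refine h6.trans ((Finset.sum_le_sum h7).trans ?_)
      rw [Nat.sum_range_choose]
    exact_mod_cast h8
  have hind : ∀ c, 0 ≤ ind S c ∧ ind S c ≤ 1 := by
    intro c
    unfold ind
    split_ifs <;> simp
  have hd0 : 0 ≤ (Q.card : ℝ) - GS 1 (fun _ c => ind S c) t x := by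
    rw [hQc, hGS, ← Finset.sum_sub_distrib]
    refine Finset.sum_nonneg fun b _ => ?_
    split_ifs
    · simp
    · simpa using (hind _).1
  have hd1 : (Q.card : ℝ) - GS 1 (fun _ c => ind S c) t x ≤ 2 ^ t := by
    refine le_trans ?_ hBadc
    rw [hQc, hGS, ← Finset.sum_sub_distrib, hBad, Finset.card_filter]
    push_cast
    refine Finset.sum_le_sum fun b _ => ?_
    by_cases hb : T^[t] b ∈ Finset.Icc 1 ⌊3 ^ od t b * x / 2 ^ t⌋₊
    · rw [if_pos hb, if_neg (not_not.2 hb), sub_self]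
    · rw [if_neg hb, if_pos hb, sub_zero]
      exact (hind _).2
  have ha1' : (((Finset.Icc 1 N).filter (fun b => b ∈ S)).card : ℝ) ≤ Q.card + 2 ^ t * B := by
    exact_mod_cast ha1
  have ha2' : (Q.card : ℝ) ≤ ((Finset.Icc 1 N).filter (fun b => b ∈ S)).card + 2 ^ t * B := by
    exact_mod_cast ha2
  rw [hNS, abs_le]
  have h5 : (0 : ℝ) ≤ 2 ^ t * B := by positivity
  constructor <;> nlinarith

end Pool.Agent.WR3.H60
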